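import Pool.Agent.H77.RZ.Stmts
import Pool.Agent.H87.AVR.ST3

/-! # RZ, module AV: the average number of nontrivial classes is at most one half -/

set_option autoImplicit false

namespace Pool.RZ

open Polynomial Matrix Pool.AVR Pool.AVS

namespace AV

theorem cubP_inj {F : Type} [Field F] {f g : F[X] × F[X] × F[X]} (h : cubP f = cubP g) :
    f = g := by
  unfold cubP cub at h
  have h0 := congrArg (fun p => p.coeff 0) h
  have h1 := congrArg (fun p => p.coeff 1) h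
  have h2 := congrArg (fun p => p.coeff 2) h
  simp only [coeff_add, coeff_X_pow, coeff_C_mul, coeff_X, coeff_C] at h0 h1 h2
  norm_num at h0 h1 h2
  exact Prod.ext h2 (Prod.ext h1 h0)

open Classical in
/-- Summing over the cubics. -/
theorem sum_fib {F : Type} [Field F] (S : Set (F[X] × F[X] × F[X])) (hS : S.Finite)
    (Q : Matrix (Fin 3) (Fin 3) F[X] → Prop) (hQ : {B | Q B}.Finite) :
    ∑ᶠ f ∈ S, ({B : Matrix (Fin 3) (Fin 3) F[X] | Q B ∧
      (AA F[X] * B).charpoly = cubP f}.ncard : ℝ) =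
      ({B : Matrix (Fin 3) (Fin 3) F[X] | Q B ∧
        ∃ f ∈ S, (AA F[X] * B).charpoly = cubP f}.ncard : ℝ) := by
  rw [finsum_mem_eq_finite_toFinset_sum _ hS]
  have hfin : ∀ f, {B : Matrix (Fin 3) (Fin 3) F[X] | Q B ∧
      (AA F[X] * B).charpoly = cubP f}.Finite := fun f => hQ.subset (fun B hB => hB.1)
  have hfin2 : {B : Matrix (Fin 3) (Fin 3) F[X] | Q B ∧
      ∃ f ∈ S, (AA F[X] * B).charpoly = cubP f}.Finite := hQ.subset (fun B hB => hB.1)
  rw [Set.ncard_eq_toFinset_card _ hfin2]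
  have e1 : hfin2.toFinset = hS.toFinset.biUnion (fun f => (hfin f).toFinset) := by
    ext B
    simp only [Set.Finite.mem_toFinset, Finset.mem_biUnion]
    constructor
    · rintro ⟨h1, f, hf, h2⟩
      exact ⟨f, hf, h1, h2⟩
    · rintro ⟨f, hf, h1, h2⟩
      exact ⟨h1, f, hf, h2⟩
  rw [e1, Finset.card_biUnion]
  · push_cast
    refine Finset.sum_congr rfl (fun f _ => ?_)
    rw [Set.ncard_eq_toFinset_card _ (hfin f)]
  · intro f _ g _ hfg
    rw [Function.onFun, Finset.disjoint_left]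
    intro B hB1 hB2
    rw [Set.Finite.mem_toFinset] at hB1 hB2
    exact hfg (cubP_inj (hB1.2.symm.trans hB2.2))

theorem pc_ne (F : Type) [Field F] : pc (0 : F) ≠ pc (1 : F) := by
  intro h
  have := congrArg (fun p => p.eval 1) h
  simp at this

theorem pc_irr {F : Type} [Field F] (c : F) : (pc c).Monic ∧ Irreducible (pc c) :=
  ⟨monic_X_sub_C c, irreducible_X_sub_C c⟩

end AV

open AV ST3 in
open Classical in
theorem av_thm (hCN : CNStmt) (hNU : NUStmt) (hDN : DNStmt) (hPR2 : PR2Stmt) (hZET : ZETStmt)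
    (hGRP : GRPStmt) (hCNB : CNBStmt) : AVStmt := by
  intro F _ _ h2
  have hq3 := ST2.three_le h2
  set q : ℝ := (Nat.card F : ℝ) with hqdef
  have hq : 3 ≤ q := by
    rw [hqdef]
    exact_mod_cast hq3
  have hq0 : 0 < q := by linarith
  obtain ⟨c, hc, hPRD'⟩ := hPR2 F h2
  -- the primes
  have hprimes : ∀ D : ℕ, ∃ S : Finset F[X], (∀ P ∈ S, P.Monic ∧ Irreducible P) ∧ pc 0 ∉ S ∧
      pc 1 ∉ S ∧ ∀ P : F[X], P.Monic → Irreducible P → P.natDegree ≤ D → P ≠ pc 0 → P ≠ pc 1 →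
        P ∈ S := by
    intro D
    obtain ⟨S0, hS1, hS2⟩ := primes_fin F D
    refine ⟨(S0.erase (pc 0)).erase (pc 1), fun P hP => ?_, fun h => ?_, fun h => ?_,
      fun P h h' h'' h3 h4 => ?_⟩
    · exact hS1 P (Finset.mem_of_mem_erase (Finset.mem_of_mem_erase hP))
    · exact (Finset.mem_erase.1 (Finset.mem_of_mem_erase h)).1 rfl
    · exact (Finset.mem_erase.1 h).1 rfl
    · exact Finset.mem_erase.2 ⟨h4, Finset.mem_erase.2 ⟨h3, hS2 P h h' h''⟩⟩
  constructor
  · obtain ⟨D, hD⟩ := hDN F h2 (c / 2) (by positivity)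
    obtain ⟨S, hS1, hS3, hS4, hS2⟩ := hprimes D
    obtain ⟨N, hN⟩ := hD S hS1 hS3 hS4 hS2
    refine ⟨c / 2, by positivity, N, fun n hn => ?_⟩
    obtain ⟨_, h3⟩ := hN n hn
    refine le_trans ?_ h3
    rw [mul_comm]
    apply mul_le_mul_of_nonneg_left _ (by positivity)
    have := hPRD' S hS1
    linarith
  intro ε0 hε0
  -- reduce to `ε ≤ 1`
  set ε : ℝ := min ε0 1 with hεdef
  have hε : 0 < ε := lt_min hε0 one_pos
  have hε1 : ε ≤ 1 := min_le_right _ _
  have hεε : ε ≤ ε0 := min_le_left _ _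
  obtain ⟨D1, hD1⟩ := hZET F (ε / 12) (by positivity)
  obtain ⟨D2, hD2⟩ := hDN F h2 (ε * c / 9) (by positivity)
  obtain ⟨S, hS1, hS3, hS4, hS2⟩ := hprimes (max D1 D2)
  have hS5 : pc (0 : F) ∉ insert (pc (1 : F)) S := by
    intro h
    rcases Finset.mem_insert.1 h with h | h
    · exact pc_ne F h
    · exact hS3 h
  have hZ := hD1 (insert (pc 0) (insert (pc 1) S)) (by
      intro P hP
      rcases Finset.mem_insert.1 hP with rfl | hP
      · exact pc_irr 0
      rcases Finset.mem_insert.1 hP with rfl | hP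
      · exact pc_irr 1
      exact hS1 P hP) (by
      intro P h h' h''
      by_cases h0 : P = pc 0
      · rw [h0]
        exact Finset.mem_insert_self _ _
      by_cases h1 : P = pc 1
      · rw [h1]
        exact Finset.mem_insert_of_mem (Finset.mem_insert_self _ _)
      exact Finset.mem_insert_of_mem (Finset.mem_insert_of_mem
        (hS2 P h h' (h''.trans (le_max_left _ _)) h0 h1)))
  rw [Finset.prod_insert hS5, Finset.prod_insert hS4, natDegree_X_sub_C, natDegree_X_sub_C,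
    mul_one] at hZ
  obtain ⟨N1, hN1⟩ := hD2 S hS1 hS3 hS4 (fun P h h' h'' h3 h4 =>
    hS2 P h h' (h''.trans (le_max_right _ _)) h3 h4)
  obtain ⟨D3, hD3⟩ := hNU F h2 S hS1 hS3 hS4
  obtain ⟨N2, hN2⟩ := tail q (ε * c / 12) hq (by positivity) D3
  have hd := hPRD' S hS1
  set d : ℝ := dd F S with hddef
  set Z0 : ℝ := ∏ P ∈ S, (1 - 1 / q ^ (2 * P.natDegree)) with hZ0def
  have hZ00 : 0 ≤ Z0 := by
    apply Finset.prod_nonneg
    intro P hP
    have h4 : 1 ≤ P.natDegree := (hS1 P hP).2.natDegree_pos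
    have h5 : 1 / q ^ (2 * P.natDegree) ≤ 1 := by
      rw [div_le_one (by positivity)]
      exact one_le_pow₀ (by linarith)
    linarith
  set Z : ℝ := (1 - 1 / q ^ 2) * ((1 - 1 / q ^ 2) * Z0) with hZdef
  have h1q : 0 ≤ 1 - 1 / q ^ 2 := by
    have h5 : 1 / q ^ 2 ≤ 1 := by
      rw [div_le_one (by positivity)]
      exact one_le_pow₀ (by linarith)
    linarith
  have hd0 : 0 < d := lt_of_lt_of_le hc hd
  refine ⟨max (max N1 N2) 1, fun n hn => ?_⟩
  have hnN1 : N1 ≤ n := (le_max_left _ _).trans ((le_max_left _ _).trans hn)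
  have hnN2 : N2 ≤ n := (le_max_right _ _).trans ((le_max_left _ _).trans hn)
  have hn1 : 1 ≤ n := (le_max_right _ _).trans hn
  obtain ⟨hfin, hlow⟩ := hN1 n hnN1
  refine ⟨hfin, ?_⟩
  have hT0 : 0 < q ^ (12 * n + 3) := by positivity
  have hcard0 : (0 : ℝ) < ((Fm F n).ncard : ℝ) := by
    refine lt_of_lt_of_le ?_ hlow
    apply mul_pos hT0
    have : ε * c / 9 < c := by nlinarith
    linarith
  obtain ⟨hG1, hG2, hG3⟩ := hGRP F h2
  set A : ℕ → Set (Matrix (Fin 3) (Fin 3) F[X]) := fun m => {B | Bd n m B ∧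
    (∃ f ∈ Fm F n, (AA F[X] * B).charpoly = cubP f) ∧ TrivC 0 B ∧ TrivC 1 B} with hA
  have hBdf : ∀ m, m ≤ n → {B : Matrix (Fin 3) (Fin 3) F[X] | Bd n m B}.Finite :=
    fun m hm => (hCNB F n m hm).1
  -- the sum over the cubics
  have hsum : ∑ᶠ f ∈ Fm F n, ((STR f).ncard : ℝ) ≤
      ∑ m ∈ Finset.range (n + 1), ((A m).ncard : ℝ) / ((GG F m).ncard : ℝ) := by
    have h1 : ∑ᶠ f ∈ Fm F n, ((STR f).ncard : ℝ) ≤ ∑ f ∈ hfin.toFinset,
        ∑ m ∈ Finset.range (n + 1), ({B : Matrix (Fin 3) (Fin 3) F[X] | Bd n m B ∧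
          (AA F[X] * B).charpoly = cubP f ∧ TrivC 0 B ∧ TrivC 1 B}.ncard : ℝ) /
            (GG F m).ncard := by
      rw [finsum_mem_eq_finite_toFinset_sum _ hfin]
      apply Finset.sum_le_sum
      intro f hf
      exact (hCN F h2 n f hn1 (hfin.mem_toFinset.1 hf)).2
    refine h1.trans (le_of_eq ?_)
    rw [Finset.sum_comm]
    refine Finset.sum_congr rfl (fun m hm => ?_)
    have hmn : m ≤ n := by
      have := Finset.mem_range.mp hm
      omega
    rw [← Finset.sum_div]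
    congr 1
    have h3 := sum_fib (Fm F n) hfin (fun B => Bd n m B ∧ TrivC 0 B ∧ TrivC 1 B)
      ((hBdf m hmn).subset (fun B hB => hB.1))
    rw [finsum_mem_eq_finite_toFinset_sum _ hfin] at h3
    have e1 : A m = {B : Matrix (Fin 3) (Fin 3) F[X] | (Bd n m B ∧ TrivC 0 B ∧ TrivC 1 B) ∧
        ∃ f ∈ Fm F n, (AA F[X] * B).charpoly = cubP f} := by
      ext B
      constructor
      · rintro ⟨h1, h2, h3, h4⟩
        exact ⟨⟨h1, h3, h4⟩, h2⟩
      · rintro ⟨⟨h1, h3, h4⟩, h2⟩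
        exact ⟨h1, h2, h3, h4⟩
    rw [e1, ← h3]
    refine Finset.sum_congr rfl (fun f _ => ?_)
    congr 2
    ext B
    constructor
    · rintro ⟨h1, h2, h3, h4⟩
      exact ⟨⟨h1, h3, h4⟩, h2⟩
    · rintro ⟨⟨h1, h3, h4⟩, h2⟩
      exact ⟨h1, h2, h3, h4⟩
  have hcardS : ∀ m : ℕ, m ≤ n → ((A m).ncard : ℝ) ≤ q ^ (12 * n + 6) := by
    intro m hmn
    obtain ⟨hC1, hC2⟩ := hCNB F n m hmn
    have h8 := (Set.ncard_le_ncard (s := A m) (fun B hB => hB.1) hC1).trans hC2
    rw [hqdef]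
    exact_mod_cast h8
  have hX := sumM q ((1 - 1 / q ^ 2) * d * Z / 4) hq (by
      exact div_nonneg (mul_nonneg (mul_nonneg h1q hd0.le)
        (mul_nonneg h1q (mul_nonneg h1q hZ00))) (by norm_num)) D3 n
    (fun m => ((A m).ncard : ℝ))
    (fun m => ((GG F m).ncard : ℝ)) (fun m => Nat.cast_nonneg _) (fun m hm => hcardS m hm)
    (fun m hm => by
      have h5 := hD3 n m hm
      refine h5.trans (le_of_eq ?_)
      rw [hZdef]
      ring)
    (fun m => ST2.GG_ge hGRP h2 m)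
    (by
      have h11 : Nat.card F ≤ Nat.card F ^ 3 := Nat.le_self_pow (by norm_num) _
      have h12 : ((Nat.card F ^ 3 - Nat.card F : ℕ) : ℝ) ≤ ((GG F 0).ncard : ℝ) := by
        exact_mod_cast hG2
      rw [Nat.cast_sub h11] at h12
      push_cast at h12
      exact h12)
    (fun m hm => by
      have h12 : (((Nat.card F - 1) * Nat.card F ^ (m + 1) : ℕ) : ℝ) ≤
          ((GG F m).ncard : ℝ) := by
        exact_mod_cast hG3 m hm
      rw [Nat.cast_mul, Nat.cast_sub (le_of_lt (Finite.one_lt_card))] at h12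
      push_cast at h12
      exact h12)
  set X : ℝ := ∑ᶠ f ∈ Fm F n, ((STR f).ncard : ℝ) with hXdef
  have hX2 : 4 * X ≤
      q ^ 3 * q ^ (12 * n + 3) * ((1 - 1 / q ^ 2) * d * Z) * (2 / ((q - 1) ^ 2 * (q + 1))) +
        ε * c / 3 * q ^ (12 * n + 3) := by
    have e1 : q ^ (12 * n + 6) = q ^ 3 * q ^ (12 * n + 3) := by
      rw [← pow_add]
      congr 1
      ring
    have h9 := hN2 n hnN2
    have h10 := hsum.trans hX
    rw [e1] at h9 h10
    linarith
  have hfinal := final q ε d c (4 * X) ((Fm F n).ncard : ℝ) (q ^ (12 * n + 3)) Z (ε * c / 9) hq hε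
    hε1 hT0 hc hd hZ le_rfl hX2 hlow
  have h13 : ε * ((Fm F n).ncard : ℝ) ≤ ε0 * (Fm F n).ncard :=
    mul_le_mul_of_nonneg_right hεε hcard0.le
  have h14 : 0 ≤ ε * ((Fm F n).ncard : ℝ) := by positivity
  nlinarith

end Pool.RZ
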